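import Pool.Agent.N783.PQ.Loc

/-!
# Project PQ: composition of divisors
-/

set_option autoImplicit false

open Polynomial

namespace Pool.Agent.N2.PQ

open Pool.Agent.N783.PQ

variable {F : Type} [Field F] [CharZero F]

/-- the signed polynomial -/
noncomputable def sgn (u : F[X]) : F[X] := (-1) ^ u.natDegree * u

/-- avoiding finitely many values of the parameter -/
lemma exists_t (f u₁ v₁ w₀ h : F[X]) (hw : u₁ * w₀ = v₁ ^ 2 - f) (hc : IsCoprime u₁ f)
    (hh : h ≠ 0) : ∃ t : F, t ≠ 0 ∧ IsCoprime (w₀ + C (2 * t) * v₁ + C (t ^ 2) * u₁) h := by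
  classical
  let K := AlgebraicClosure F
  let q : K → K[X] := fun x => C (aeval x w₀) + C (2 * aeval x v₁) * X + C (aeval x u₁) * X ^ 2
  have hq : ∀ x : K, q x ≠ 0 := by
    intro x h0
    have h1 : aeval x w₀ = 0 := by
      have := congrArg (fun p => coeff p 0) h0
      simpa [q] using this
    have h2 : aeval x v₁ = 0 := by
      have := congrArg (fun p => coeff p 1) h0
      simpa [q, coeff_X, coeff_C] using this
    have h3 : aeval x u₁ = 0 := by
      have := congrArg (fun p => coeff p 2) h0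
      simpa [q, coeff_X, coeff_C] using this
    have h4 : aeval x f = 0 := by
      have := congrArg (aeval x) hw
      rw [map_mul, map_sub, map_pow, h3, h2] at this
      simpa using this
    obtain ⟨a, b, hab⟩ := hc
    have := congrArg (aeval x) hab
    rw [map_add, map_mul, map_mul, h3, h4] at this
    simp at this
  let Z : Finset K := (h.aroots K).toFinset
  let Bd : Finset K := Z.biUnion fun x => (q x).roots.toFinset
  have hinf : (Set.range (algebraMap F K)).Infinite :=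
    Set.infinite_range_of_injective (algebraMap F K).injective
  obtain ⟨_, ⟨t, rfl⟩, ht⟩ := hinf.exists_notMem_finset (insert 0 Bd)
  rw [Finset.mem_insert, not_or] at ht
  refine ⟨t, ?_, ?_⟩
  · rintro rfl
    exact ht.1 (map_zero _)
  · rw [Polynomial.isCoprime_iff_aeval_ne_zero_of_isAlgClosed F K]
    intro x
    by_cases hx : aeval x h = 0
    · left
      intro h1
      apply ht.2
      rw [Finset.mem_biUnion]
      refine ⟨x, ?_, ?_⟩
      · rw [Multiset.mem_toFinset, mem_aroots]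
        exact ⟨hh, hx⟩
      · rw [Multiset.mem_toFinset, mem_roots (hq x), IsRoot.def]
        rw [← h1]
        simp only [q, eval_add, eval_mul, eval_C, eval_X, eval_pow, map_add, map_mul, aeval_C,
          map_ofNat, map_pow, eval_ofNat]
        ring
    · exact Or.inr hx

/-- moving a divisor away from another one -/
lemma move (g : ℕ) (f u₁ v₁ h : F[X]) (hf : f.Monic) (hd : f.natDegree = 2 * g + 1)
    (hu : u₁.Monic) (hc : IsCoprime u₁ f) (hdv : u₁ ∣ v₁ ^ 2 - f) (hh : h ≠ 0) :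
    ∃ u v s : F[X], u.Monic ∧ u ∣ v ^ 2 - f ∧ IsCoprime u h ∧ f ∣ sgn u₁ * sgn u - s ^ 2 := by
  classical
  by_cases hm : u₁.natDegree = 0
  · have h1 : u₁ = 1 := hu.natDegree_eq_zero.1 hm
    refine ⟨1, 0, 1, monic_one, one_dvd _, isCoprime_one_left, ?_⟩
    rw [h1]
    simp [sgn]
  -- reduce
  obtain ⟨v₀, hv0, hv1⟩ : ∃ v₀ : F[X], v₀.degree < u₁.degree ∧ u₁ ∣ v₀ ^ 2 - f := by
    refine ⟨v₁ %ₘ u₁, degree_modByMonic_lt _ hu, ?_⟩
    have h1 : v₁ %ₘ u₁ = v₁ - u₁ * (v₁ /ₘ u₁) := by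
      rw [eq_sub_iff_add_eq]
      exact modByMonic_add_div v₁ u₁
    have h2 : (v₁ %ₘ u₁) ^ 2 - f =
        (v₁ ^ 2 - f) + u₁ * (- 2 * v₁ * (v₁ /ₘ u₁) + u₁ * (v₁ /ₘ u₁) ^ 2) := by
      rw [h1]; ring
    rw [h2]
    exact dvd_add hdv (dvd_mul_right _ _)
  obtain ⟨w₀, hw0⟩ := hv1
  obtain ⟨t, ht0, ht⟩ := exists_t f u₁ v₀ w₀ h hw0.symm hc hh
  set w : F[X] := w₀ + C (2 * t) * v₀ + C (t ^ 2) * u₁ with hw
  set v : F[X] := v₀ + C t * u₁ with hv
  have huw : u₁ * w = v ^ 2 - f := by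
    rw [hw, hv]
    have : C (2 * t) = 2 * (C t : F[X]) := by rw [C_mul]; rfl
    rw [this, C_pow]
    linear_combination -hw0
  have hu0 : u₁ ≠ 0 := hu.ne_zero
  have hvd : v.natDegree = u₁.natDegree ∧ v.leadingCoeff = t := by
    have h1 : (C t * u₁).degree = u₁.degree := by
      rw [degree_mul, degree_C ht0, zero_add]
    have h2 : v₀.degree < (C t * u₁).degree := by rw [h1]; exact hv0
    constructor
    · apply natDegree_eq_of_degree_eq
      rw [hv, degree_add_eq_right_of_degree_lt h2, h1]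
    · rw [hv, leadingCoeff_add_of_degree_lt h2, leadingCoeff_mul, leadingCoeff_C, hu.leadingCoeff,
        mul_one]
  have hv0' : v ≠ 0 := by
    rw [← leadingCoeff_ne_zero, hvd.2]; exact ht0
  have hv2 : (v ^ 2).natDegree = 2 * u₁.natDegree ∧ (v ^ 2).leadingCoeff = t ^ 2 := by
    rw [natDegree_pow, leadingCoeff_pow, hvd.1, hvd.2]
    exact ⟨rfl, rfl⟩
  have hv20 : v ^ 2 ≠ 0 := pow_ne_zero 2 hv0'
  rcases lt_or_gt_of_ne (show (v ^ 2).natDegree ≠ f.natDegree by rw [hv2.1, hd]; omega) with hlt | hlt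
  · -- `2 m < 2 g + 1`
    have hdeg : (v ^ 2).degree < f.degree := (natDegree_lt_natDegree_iff hv20).1 hlt
    have h1 : (v ^ 2 - f).natDegree = 2 * g + 1 := by
      rw [natDegree_sub_eq_right_of_natDegree_lt hlt, hd]
    have h2 : (v ^ 2 - f).leadingCoeff = -1 := by
      rw [leadingCoeff_sub_of_degree_lt' hdeg, hf.leadingCoeff]
    rw [← huw] at h1 h2
    rw [leadingCoeff_mul, hu.leadingCoeff, one_mul] at h2
    have hw0' : w ≠ 0 := by
      rw [← leadingCoeff_ne_zero, h2]; norm_num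
    rw [natDegree_mul hu0 hw0'] at h1
    refine ⟨-w, v, v, ?_, ?_, ?_, ?_⟩
    · rw [Monic, leadingCoeff_neg, h2, neg_neg]
    · rw [← huw, neg_dvd]
      exact dvd_mul_left _ _
    · exact ht.neg_left
    · have h3 : sgn u₁ * sgn (-w) - v ^ 2 = -f := by
        have h4 : sgn u₁ * sgn (-w) =
            (-1) ^ (u₁.natDegree + w.natDegree) * (-(u₁ * w)) := by
          rw [sgn, sgn, natDegree_neg, pow_add]; ring
        rw [h4, h1, huw, Odd.neg_one_pow ⟨g, rfl⟩]
        ring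
      rw [h3, dvd_neg]
  · have hdeg : f.degree < (v ^ 2).degree := (natDegree_lt_natDegree_iff hf.ne_zero).1 hlt
    have h1 : (v ^ 2 - f).natDegree = 2 * u₁.natDegree := by
      rw [natDegree_sub_eq_left_of_natDegree_lt hlt, hv2.1]
    have h2 : (v ^ 2 - f).leadingCoeff = t ^ 2 := by
      rw [leadingCoeff_sub_of_degree_lt hdeg, hv2.2]
    rw [← huw] at h1 h2
    rw [leadingCoeff_mul, hu.leadingCoeff, one_mul] at h2
    have hw0' : w ≠ 0 := by
      rw [← leadingCoeff_ne_zero, h2]; positivity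
    rw [natDegree_mul hu0 hw0'] at h1
    have ht2 : (t ^ 2)⁻¹ ≠ 0 := inv_ne_zero (pow_ne_zero 2 ht0)
    refine ⟨C (t ^ 2)⁻¹ * w, v, C t⁻¹ * v, ?_, ?_, ?_, ?_⟩
    · rw [Monic, leadingCoeff_mul, leadingCoeff_C, h2, inv_mul_cancel₀ (pow_ne_zero 2 ht0)]
    · rw [← huw]
      have h5 : C (t ^ 2)⁻¹ * w * C (t ^ 2) = w := by
        rw [mul_right_comm, ← C_mul, inv_mul_cancel₀ (pow_ne_zero 2 ht0), C_1, one_mul]
      exact (Dvd.intro _ h5).trans (dvd_mul_left _ _)
    · exact (isCoprime_mul_unit_left_left (isUnit_C.2 ht2.isUnit) _ _).2 ht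
    · have h3 : sgn u₁ * sgn (C (t ^ 2)⁻¹ * w) - (C t⁻¹ * v) ^ 2 = C (t ^ 2)⁻¹ * (-f) := by
        have h4 : sgn u₁ * sgn (C (t ^ 2)⁻¹ * w) =
            (-1) ^ (u₁.natDegree + w.natDegree) * (C (t ^ 2)⁻¹ * (u₁ * w)) := by
          rw [sgn, sgn, natDegree_C_mul ht2, pow_add]; ring
        rw [h4, h1, huw, Even.neg_one_pow ⟨u₁.natDegree, by ring⟩, mul_pow, ← C_pow, inv_pow]
        ring
      rw [h3]
      exact (dvd_neg.2 dvd_rfl).mul_left _

omit [CharZero F] in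
lemma mk_iff (f a b : F[X]) : f ∣ a - b ↔ AdjoinRoot.mk f a = AdjoinRoot.mk f b :=
  AdjoinRoot.mk_eq_mk.symm

/-- the composition of two divisors -/
lemma two (g : ℕ) (f u₁ v₁ u₂ v₂ : F[X]) (hf : f.Monic) (hd : f.natDegree = 2 * g + 1)
    (hu : u₁.Monic) (hc : IsCoprime u₁ f) (hdv : u₁ ∣ v₁ ^ 2 - f)
    (hu' : u₂.Monic) (hc' : IsCoprime u₂ f) (hdv' : u₂ ∣ v₂ ^ 2 - f) :
    ∃ u v s : F[X], u.Monic ∧ IsCoprime u f ∧ u ∣ v ^ 2 - f ∧
      f ∣ sgn u₁ * sgn u₂ * sgn u - s ^ 2 := by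
  obtain ⟨u, v, s, h1, h2, h3, h4⟩ := move g f u₁ v₁ (f * u₂) hf hd hu hc hdv
    (mul_ne_zero hf.ne_zero hu'.ne_zero)
  have h5 : IsCoprime u f := (IsCoprime.mul_right_iff.1 h3).1
  have h6 : IsCoprime u u₂ := (IsCoprime.mul_right_iff.1 h3).2
  obtain ⟨a, b, hab⟩ := h6
  refine ⟨u * u₂, v * (b * u₂) + v₂ * (a * u), s * u₂, h1.mul hu', h5.mul_left hc', ?_, ?_⟩
  · apply IsCoprime.mul_dvd ⟨a, b, hab⟩
    · have e : (v * (b * u₂) + v₂ * (a * u)) ^ 2 - f = (v ^ 2 - f) +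
          u * (a * (v₂ - v)) * (v * (b * u₂) + v₂ * (a * u) + v) := by
        have hb : b * u₂ = 1 - a * u := by rw [← hab]; ring
        rw [hb]; ring
      rw [e]
      exact dvd_add h2 (Dvd.intro _ (by ring : u * ((a * (v₂ - v)) *
        (v * (b * u₂) + v₂ * (a * u) + v)) = _))
    · have e : (v * (b * u₂) + v₂ * (a * u)) ^ 2 - f = (v₂ ^ 2 - f) +
          u₂ * (b * (v - v₂)) * (v * (b * u₂) + v₂ * (a * u) + v₂) := by
        have hb : a * u = 1 - b * u₂ := by rw [← hab]; ring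
        rw [hb]; ring
      rw [e]
      exact dvd_add hdv' (Dvd.intro _ (by ring : u₂ * ((b * (v - v₂)) *
        (v * (b * u₂) + v₂ * (a * u) + v₂)) = _))
  · have e : sgn u₁ * sgn u₂ * sgn (u * u₂) - (s * u₂) ^ 2 =
        u₂ ^ 2 * (sgn u₁ * sgn u - s ^ 2) := by
      have e1 : sgn (u * u₂) = sgn u * sgn u₂ := by
        rw [sgn, sgn, sgn, natDegree_mul h1.ne_zero hu'.ne_zero, pow_add]; ring
      have e2 : sgn u₂ ^ 2 = u₂ ^ 2 := by
        rw [sgn, mul_pow, ← pow_mul, mul_comm _ 2, pow_mul]; norm_num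
      rw [e1]
      linear_combination (sgn u₁ * sgn u) * e2
    rw [e]
    exact h4.mul_left _

omit [CharZero F] in
lemma isCoprime_sgn {u f : F[X]} (h : IsCoprime u f) : IsCoprime (sgn u) f := by
  have hunit : IsUnit ((-1 : F[X]) ^ u.natDegree) := (isUnit_one.neg).pow _
  exact (isCoprime_mul_unit_left_left hunit _ _).2 h

lemma many (g : ℕ) (f : F[X]) (hf : f.Monic) (hd : f.natDegree = 2 * g + 1)
    (l : List (F[X] × F[X]))
    (hl : ∀ p ∈ l, p.1.Monic ∧ IsCoprime p.1 f ∧ p.1 ∣ p.2 ^ 2 - f) :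
    ∃ u v t : F[X], u.Monic ∧ IsCoprime u f ∧ u ∣ v ^ 2 - f ∧
      f ∣ (l.map fun p => (-1) ^ p.1.natDegree * p.1).prod * sgn u - t ^ 2 := by
  induction l with
  | nil => exact ⟨1, 0, 1, monic_one, isCoprime_one_left, one_dvd _, by simp [sgn]⟩
  | cons p l ih =>
    obtain ⟨u, v, t, h1, h2, h3, h4⟩ := ih fun p hp => hl p (List.mem_cons_of_mem _ hp)
    obtain ⟨k1, k2, k3⟩ := hl p List.mem_cons_self
    obtain ⟨u', v', s, h1', h2', h3', h4'⟩ := two g f p.1 p.2 u v hf hd k1 k2 k3 h1 h2 h3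
    obtain ⟨a, b, hab⟩ := isCoprime_sgn h2
    refine ⟨u', v', t * s * a, h1', h2', h3', ?_⟩
    rw [List.map_cons, List.prod_cons]
    rw [mk_iff] at h4 h4' ⊢
    have h5 : AdjoinRoot.mk f a * AdjoinRoot.mk f (sgn u) = 1 := by
      have := congrArg (AdjoinRoot.mk f) hab
      rw [map_add, map_mul, map_mul, AdjoinRoot.mk_self, mul_zero, add_zero, map_one] at this
      exact this
    simp only [map_mul, map_pow] at h4 h4' ⊢
    have h6 : AdjoinRoot.mk f (sgn p.1) =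
        AdjoinRoot.mk f (-1) ^ p.1.natDegree * AdjoinRoot.mk f p.1 := by
      rw [sgn, map_mul, map_pow]
    rw [h6] at h4'
    set P := AdjoinRoot.mk f (List.map (fun p => (-1) ^ p.1.natDegree * p.1) l).prod
    linear_combination (-(P * (AdjoinRoot.mk f (-1) ^ p.1.natDegree * AdjoinRoot.mk f p.1) *
      AdjoinRoot.mk f (sgn u')) * (1 + AdjoinRoot.mk f a * AdjoinRoot.mk f (sgn u))) * h5 +
      (AdjoinRoot.mk f a) ^ 2 * ((AdjoinRoot.mk f (-1) ^ p.1.natDegree * AdjoinRoot.mk f p.1) *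
        AdjoinRoot.mk f (sgn u) * AdjoinRoot.mk f (sgn u')) * h4 +
      (AdjoinRoot.mk f a) ^ 2 * (AdjoinRoot.mk f t) ^ 2 * h4'

theorem cant : S_CANT := by
  intro F _ _ g f h hf hd hL
  obtain ⟨l, s, hl, hs⟩ := hL
  obtain ⟨u, v, t, h1, h2, h3, h4⟩ := many g f hf hd l hl
  have hP : IsCoprime (l.map fun p => (-1) ^ p.1.natDegree * p.1).prod f := by
    apply IsCoprime.symm
    have : ∀ l : List (F[X] × F[X]), (∀ p ∈ l, IsCoprime p.1 f) →
        IsCoprime f (l.map fun p => (-1) ^ p.1.natDegree * p.1).prod := by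
      intro l
      induction l with
      | nil => intro _; exact isCoprime_one_right
      | cons p l ih =>
        intro hl
        rw [List.map_cons, List.prod_cons]
        exact IsCoprime.mul_right (isCoprime_sgn (hl p List.mem_cons_self)).symm
          (ih fun p hp => hl p (List.mem_cons_of_mem _ hp))
    exact this l fun p hp => (hl p hp).2.1
  obtain ⟨a, b, hab⟩ := hP
  refine ⟨u, v, s * t * a, h1, h2, h3, ?_⟩
  set P := (l.map fun p => (-1) ^ p.1.natDegree * p.1).prod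
  change f ∣ h * sgn u - _
  rw [mk_iff] at hs h4 ⊢
  have h5 : AdjoinRoot.mk f a * AdjoinRoot.mk f P = 1 := by
    have := congrArg (AdjoinRoot.mk f) hab
    rw [map_add, map_mul, map_mul, AdjoinRoot.mk_self, mul_zero, add_zero, map_one] at this
    exact this
  simp only [map_mul, map_pow] at hs h4 ⊢
  linear_combination (-(AdjoinRoot.mk f h * AdjoinRoot.mk f (sgn u)) *
      (1 + AdjoinRoot.mk f a * AdjoinRoot.mk f P)) * h5 +
    (AdjoinRoot.mk f a) ^ 2 * (AdjoinRoot.mk f P * AdjoinRoot.mk f (sgn u)) * hs +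
    (AdjoinRoot.mk f a) ^ 2 * (AdjoinRoot.mk f s) ^ 2 * h4

end Pool.Agent.N2.PQ
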